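import Pool.Agent.D0H9.NL.Cube

/-!
# NL11: a field of symmetric matrices
-/

set_option autoImplicit false

open Set Filter Topology Metric Function
open scoped ContDiff RealInnerProductSpace

noncomputable section

namespace Pool.Agent.D0H9.NL

open Pool.Agent.D0H39.NL

variable {n : ℕ} {Λ : Set (E n × E n)}

theorem isOpen_oneSided (ε : ℝ) : IsOpen {z : E n × E n | OneSidedNear Λ z ε} := by
  rw [Metric.isOpen_iff]
  rintro z ⟨C, r, hC, hr, h⟩
  refine ⟨r / 2, by positivity, fun z' hz' => ⟨C, r / 2, hC, by positivity, ?_⟩⟩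
  intro w hw w' hw' h1 h2
  rw [mem_ball, dist_eq_norm] at hz'
  have h3 : ‖w - z‖ < r := by
    calc ‖w - z‖ = ‖(w - z') + (z' - z)‖ := by rw [sub_add_sub_cancel]
      _ ≤ ‖w - z'‖ + ‖z' - z‖ := norm_add_le _ _
      _ < r := by linarith
  have h4 : ‖w' - z‖ < r := by
    calc ‖w' - z‖ = ‖(w' - z') + (z' - z)‖ := by rw [sub_add_sub_cancel]
      _ ≤ ‖w' - z'‖ + ‖z' - z‖ := norm_add_le _ _
      _ < r := by linarith
  exact h w hw w' hw' h3 h4

/-- translations preserve the one-sided condition -/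
theorem oneSided_translate (hL : IsLagrangianLift n Λ) {z : E n × E n} {ε : ℝ} (k : Fin n → ℤ)
    (h : OneSidedNear Λ z ε) : OneSidedNear Λ (z.1 + latt k, z.2) ε := by
  obtain ⟨C, r, hC, hr, h⟩ := h
  refine ⟨C, r, hC, hr, ?_⟩
  intro w hw w' hw' h1 h2
  have e1 : ∀ w : E n × E n, ((w.1 + latt (-k), w.2) : E n × E n) - z = w - (z.1 + latt k, z.2) := by
    intro w
    ext1
    · simp [latt_neg]; abel
    · simp
  have := h (w.1 + latt (-k), w.2) (hL.per w hw (-k)) (w'.1 + latt (-k), w'.2) (hL.per w' hw' (-k))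
    (by rw [e1]; exact h1) (by rw [e1]; exact h2)
  simpa using this

theorem not_oneSided_translate (hL : IsLagrangianLift n Λ) {z : E n × E n} {ε : ℝ} (k : Fin n → ℤ)
    (h : ¬ OneSidedNear Λ z ε) : ¬ OneSidedNear Λ (z.1 + latt k, z.2) ε := by
  intro h'
  have := oneSided_translate hL (-k) h'
  simp only [latt_neg, add_neg_cancel_right] at this
  exact h this

/-- projections of closed subsets of `Λ` are closed -/
theorem isClosed_proj (hL : IsLagrangianLift n Λ) {A : Set (E n × E n)} (hA : IsClosed A) :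
    IsClosed (Prod.fst '' (Λ ∩ A)) := by
  obtain ⟨R, hR⟩ := hL.bdd
  refine IsSeqClosed.isClosed ?_
  intro q q₀ hq hlim
  choose z hz using hq
  have hz2 : ∀ j, (z j).2 ∈ closedBall (0 : E n) R := fun j => by simpa using hR _ (hz j).1.1
  obtain ⟨p, hp, φ, hφ, hlim2⟩ := (isCompact_closedBall (0 : E n) R).tendsto_subseq hz2
  have h1 : Tendsto (fun j => (z (φ j)).1) atTop (𝓝 q₀) := by
    have : (fun j => (z (φ j)).1) = fun j => q (φ j) := by
      funext j; exact (hz (φ j)).2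
    rw [this]
    exact hlim.comp hφ.tendsto_atTop
  have h2 : Tendsto (fun j => z (φ j)) atTop (𝓝 (q₀, p)) := h1.prodMk_nhds hlim2
  have h3 : (q₀, p) ∈ Λ ∩ A := (hL.closed.inter hA).mem_of_tendsto h2
    (Filter.Eventually.of_forall fun j => (hz (φ j)).1)
  exact ⟨_, h3, rfl⟩

/-- the momentum is uniformly continuous as a function of the position -/
theorem unif (hL : IsLagrangianLift n Λ) (hI : ∀ z ∈ Λ, ∀ w ∈ Λ, z.1 = w.1 → z = w) {r : ℝ} (hr : 0 < r) :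
    ∃ d : ℝ, 0 < d ∧ ∀ z ∈ Λ, ∀ w ∈ Λ, ‖z.1 - w.1‖ < d → ‖z.2 - w.2‖ < r := by
  obtain ⟨ρ, hρ⟩ := (isCompact_cube n).isBounded.subset_closedBall (0 : E n)
  have hK1 : IsCompact (Λ ∩ {z | z.1 ∈ cube n}) := compactOver hL (isCompact_cube n)
  have hK2 : IsCompact (Λ ∩ {z | z.1 ∈ closedBall (0 : E n) (ρ + 1)}) :=
    compactOver hL (isCompact_closedBall _ _)
  let S : Set ((E n × E n) × (E n × E n)) :=
    ((Λ ∩ {z | z.1 ∈ cube n}) ×ˢ (Λ ∩ {z | z.1 ∈ closedBall (0 : E n) (ρ + 1)})) ∩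
      {x | r ≤ ‖x.1.2 - x.2.2‖}
  have hS : IsCompact S := (hK1.prod hK2).inter_right (isClosed_le (by fun_prop) (by fun_prop))
  have hmin : ∃ d : ℝ, 0 < d ∧ ∀ x ∈ S, d ≤ ‖x.1.1 - x.2.1‖ := by
    rcases S.eq_empty_or_nonempty with h0 | hne
    · exact ⟨1, one_pos, fun x hx => by simp [h0] at hx⟩
    · obtain ⟨x, hx, hm⟩ := hS.exists_isMinOn hne
        (f := fun x : (E n × E n) × (E n × E n) => ‖x.1.1 - x.2.1‖) (by fun_prop)
      refine ⟨‖x.1.1 - x.2.1‖, ?_, fun y hy => hm hy⟩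
      refine norm_pos_iff.2 (fun h => ?_)
      have h1 := hI x.1 hx.1.1.1 x.2 hx.1.2.1 (sub_eq_zero.1 h)
      have h2 : r ≤ ‖x.1.2 - x.2.2‖ := hx.2
      rw [h1, sub_self, norm_zero] at h2
      linarith
  obtain ⟨d, hd, hdS⟩ := hmin
  refine ⟨min d 1, lt_min hd one_pos, ?_⟩
  intro z hz w hw hzw
  by_contra hge
  push Not at hge
  obtain ⟨k, hk⟩ := exists_latt z.1
  have h1 : ‖z.1 + latt k‖ ≤ ρ := by simpa using hρ hk
  have h2 : ‖w.1 + latt k‖ ≤ ρ + 1 := by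
    have : w.1 + latt k = (z.1 + latt k) - (z.1 - w.1) := by abel
    rw [this]
    have := norm_sub_le (z.1 + latt k) (z.1 - w.1)
    have h3 : ‖z.1 - w.1‖ < 1 := hzw.trans_le (min_le_right _ _)
    linarith
  have hmem : (((z.1 + latt k, z.2), (w.1 + latt k, w.2)) : (E n × E n) × (E n × E n)) ∈ S :=
    ⟨⟨⟨hL.per z hz k, hk⟩, ⟨hL.per w hw k, by simpa using h2⟩⟩, hge⟩
  have := hdS _ hmem
  simp only [add_sub_add_right_eq_sub] at this
  exact absurd (hzw.trans_le (min_le_left _ _)) (not_lt.2 this)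

/-- the two inequalities for a pair -/
def Cl (e : E n → ℝ) (C : ℝ) (z w : E n × E n) : Prop :=
  -C * ‖z.1 - w.1‖ ^ 2 ≤ e z.1 * ⟪z.1 - w.1, z.2 - w.2⟫ ∧
    ‖z.2 - w.2‖ ≤ |e z.1| * ‖z.2 - w.2‖ + C * ‖z.1 - w.1‖

theorem Cl.mono {e : E n → ℝ} {C C' : ℝ} {z w : E n × E n} (h : Cl e C z w) (hC : C ≤ C') : Cl e C' z w := by
  constructor
  · refine le_trans ?_ h.1
    exact mul_le_mul_of_nonneg_right (neg_le_neg hC) (sq_nonneg _)
  · refine h.2.trans ?_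
    gcongr

theorem t_FIELD : S_SEP → S_FIELD := by
  intro hSEP n Λ hL hI hS hLip
  obtain ⟨e, he, heper, heb, δ₀, hδ₀, heA, heB⟩ := hSEP n
    (Prod.fst '' (Λ ∩ {z | ¬ OneSidedNear Λ z (-1)})) (Prod.fst '' (Λ ∩ {z | ¬ OneSidedNear Λ z 1}))
    (isClosed_proj hL (isOpen_oneSided (-1)).isClosed_compl)
    (isClosed_proj hL (isOpen_oneSided 1).isClosed_compl)
    (by
      rw [Set.disjoint_left]
      rintro q ⟨z, hz, rfl⟩ ⟨w, hw, hzw⟩
      have h := hI w hw.1 z hz.1 hzw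
      subst h
      rcases hS w hw.1 with h1 | h1
      · exact hw.2 h1
      · exact hz.2 h1)
    (by
      rintro q ⟨z, hz, rfl⟩ k
      exact ⟨(z.1 + latt k, z.2), ⟨hL.per z hz.1 k, not_oneSided_translate hL k hz.2⟩, rfl⟩)
    (by
      rintro q ⟨z, hz, rfl⟩ k
      exact ⟨(z.1 + latt k, z.2), ⟨hL.per z hz.1 k, not_oneSided_translate hL k hz.2⟩, rfl⟩)
  refine ⟨e, he, heper, ?_⟩
  -- local claim
  have hloc : ∀ z₀ ∈ Λ, ∃ C r : ℝ, 0 < r ∧ ∀ z ∈ Λ, ∀ w ∈ Λ, ‖z - z₀‖ < r → ‖w - z₀‖ < r → Cl e C z w := by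
    intro z₀ hz₀
    by_cases hm : OneSidedNear Λ z₀ (-1)
    · by_cases hp : OneSidedNear Λ z₀ 1
      · -- both
        obtain ⟨C₃, r₃, hC₃, hr₃, h₃⟩ := hLip z₀ hz₀ hp hm
        obtain ⟨C₁, r₁, hC₁, hr₁, h₁⟩ := hp
        obtain ⟨C₂, r₂, hC₂, hr₂, h₂⟩ := hm
        refine ⟨C₁ + C₂ + C₃, min r₁ (min r₂ r₃), by positivity, ?_⟩
        intro z hz w hw hzr hwr
        have a1 := h₁ z hz w hw (hzr.trans_le (min_le_left _ _)) (hwr.trans_le (min_le_left _ _))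
        have a2 := h₂ z hz w hw (hzr.trans_le ((min_le_right _ _).trans (min_le_left _ _)))
          (hwr.trans_le ((min_le_right _ _).trans (min_le_left _ _)))
        have a3 := h₃ z hz w hw (hzr.trans_le ((min_le_right _ _).trans (min_le_right _ _)))
          (hwr.trans_le ((min_le_right _ _).trans (min_le_right _ _)))
        have hsq : 0 ≤ ‖z.1 - w.1‖ ^ 2 := sq_nonneg _
        have hb := abs_le.1 (heb z.1)
        refine ⟨?_, ?_⟩
        · have b1 : |⟪z.1 - w.1, z.2 - w.2⟫| ≤ (C₁ + C₂) * ‖z.1 - w.1‖ ^ 2 := by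
            rw [abs_le]
            constructor <;> nlinarith
          have b2 : |e z.1 * ⟪z.1 - w.1, z.2 - w.2⟫| ≤ (C₁ + C₂) * ‖z.1 - w.1‖ ^ 2 := by
            rw [abs_mul]
            calc |e z.1| * |⟪z.1 - w.1, z.2 - w.2⟫| ≤ 1 * |⟪z.1 - w.1, z.2 - w.2⟫| := by
                  gcongr
                  exact heb z.1
              _ ≤ _ := by rw [one_mul]; exact b1
          have b3 := (abs_le.1 b2).1
          nlinarith
        · have : 0 ≤ |e z.1| * ‖z.2 - w.2‖ := by positivity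
          have : C₃ * ‖z.1 - w.1‖ ≤ (C₁ + C₂ + C₃) * ‖z.1 - w.1‖ := by
            gcongr
            linarith
          linarith
      · -- not `1`: `e = -1`
        obtain ⟨C₂, r₂, hC₂, hr₂, h₂⟩ := hm
        refine ⟨C₂, min r₂ δ₀, lt_min hr₂ hδ₀, ?_⟩
        intro z hz w hw hzr hwr
        have he1 : e z.1 = -1 := by
          refine heB z₀.1 ⟨z₀, ⟨hz₀, hp⟩, rfl⟩ z.1 ?_
          exact (norm_fst_le (z - z₀)).trans_lt (hzr.trans_le (min_le_right _ _))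
        have a2 := h₂ z hz w hw (hzr.trans_le (min_le_left _ _)) (hwr.trans_le (min_le_left _ _))
        refine ⟨?_, ?_⟩
        · rw [he1]; exact a2
        · rw [he1]
          have : 0 ≤ C₂ * ‖z.1 - w.1‖ := by positivity
          simpa using this
    · have hp : OneSidedNear Λ z₀ 1 := (hS z₀ hz₀).resolve_right hm
      obtain ⟨C₂, r₂, hC₂, hr₂, h₂⟩ := hp
      refine ⟨C₂, min r₂ δ₀, lt_min hr₂ hδ₀, ?_⟩
      intro z hz w hw hzr hwr
      have he1 : e z.1 = 1 := by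
        refine heA z₀.1 ⟨z₀, ⟨hz₀, hm⟩, rfl⟩ z.1 ?_
        exact (norm_fst_le (z - z₀)).trans_lt (hzr.trans_le (min_le_right _ _))
      have a2 := h₂ z hz w hw (hzr.trans_le (min_le_left _ _)) (hwr.trans_le (min_le_left _ _))
      refine ⟨?_, ?_⟩
      · rw [he1]; exact a2
      · rw [he1]
        have : 0 ≤ C₂ * ‖z.1 - w.1‖ := by positivity
        simpa using this
  -- compactness
  have hK : IsCompact (Λ ∩ {z | z.1 ∈ cube n}) := compactOver hL (isCompact_cube n)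
  have hunif : ∃ C δ : ℝ, 0 < δ ∧ ∀ z ∈ Λ ∩ {z | z.1 ∈ cube n}, ∀ w ∈ Λ, ‖z - w‖ < δ → Cl e C z w := by
    refine hK.induction_on (p := fun s => ∃ C δ : ℝ, 0 < δ ∧ ∀ z ∈ Λ ∩ s, ∀ w ∈ Λ, ‖z - w‖ < δ → Cl e C z w)
      ?_ ?_ ?_ ?_ |>.imp fun C => Exists.imp fun δ h => ⟨h.1, fun z hz => h.2 z ⟨hz.1, hz⟩⟩
    · exact ⟨0, 1, one_pos, fun z hz => by simp at hz⟩
    · rintro s t hst ⟨C, δ, hδ, h⟩
      exact ⟨C, δ, hδ, fun z hz => h z ⟨hz.1, hst hz.2⟩⟩
    · rintro s t ⟨C, δ, hδ, h⟩ ⟨C', δ', hδ', h'⟩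
      refine ⟨max C C', min δ δ', lt_min hδ hδ', ?_⟩
      rintro z ⟨hz, hz' | hz'⟩ w hw hzw
      · exact (h z ⟨hz, hz'⟩ w hw (hzw.trans_le (min_le_left _ _))).mono (le_max_left _ _)
      · exact (h' z ⟨hz, hz'⟩ w hw (hzw.trans_le (min_le_right _ _))).mono (le_max_right _ _)
    · intro z₀ hz₀
      obtain ⟨C, r, hr, h⟩ := hloc z₀ hz₀.1
      refine ⟨ball z₀ (r / 2), nhdsWithin_le_nhds (ball_mem_nhds z₀ (by positivity)), C, r / 2, by positivity, ?_⟩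
      rintro z ⟨hz, hz'⟩ w hw hzw
      rw [mem_ball, dist_eq_norm] at hz'
      refine h z hz w hw (by linarith) ?_
      calc ‖w - z₀‖ = ‖(z - z₀) - (z - w)‖ := by congr 1; abel
        _ ≤ ‖z - z₀‖ + ‖z - w‖ := norm_sub_le _ _
        _ < r := by linarith
  obtain ⟨C, δ, hδ, hC⟩ := hunif
  obtain ⟨d, hd, hdu⟩ := unif hL hI hδ
  refine ⟨C, min d δ, lt_min hd hδ, ?_⟩
  intro z hz w hw hzw
  obtain ⟨k, hk⟩ := exists_latt z.1
  have h1 : ‖z.2 - w.2‖ < δ := hdu z hz w hw (hzw.trans_le (min_le_left _ _))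
  have h2 : ‖z.1 - w.1‖ < δ := hzw.trans_le (min_le_right _ _)
  have h3 := hC (z.1 + latt k, z.2) ⟨hL.per z hz k, hk⟩ (w.1 + latt k, w.2) (hL.per w hw k) (by
    rw [Prod.mk_sub_mk, add_sub_add_right_eq_sub, Prod.norm_mk]
    exact max_lt h2 h1)
  unfold Cl at h3
  simp only [add_sub_add_right_eq_sub, heper] at h3
  exact h3

end Pool.Agent.D0H9.NL
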