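import Pool.Agent.D0H9.NL.Cube

/-!
# NL9: the maximum principle
-/

set_option autoImplicit false

open Set Filter Topology Metric Function
open scoped ContDiff RealInnerProductSpace

noncomputable section

namespace Pool.Agent.D0H9.NL

open Pool.Agent.D0H39.NL

/-- the estimate for `f` makes it continuous on `Λ` -/
theorem f_cont {n : ℕ} {Λ : Set (E n × E n)} {f : E n × E n → ℝ}
    (hD : ∀ z ∈ Λ, ∃ C r₁ : ℝ, 0 < r₁ ∧ ∀ w ∈ Λ, ‖w - z‖ < r₁ →
      |f w - f z - ⟪z.2, w.1 - z.1⟫| ≤ C * ‖w - z‖ * ‖w.1 - z.1‖) : ContinuousOn f Λ := by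
  intro z hz
  obtain ⟨C, r, hr, h⟩ := hD z hz
  have h1 : Tendsto (fun w : E n × E n => C * ‖w - z‖ * ‖w.1 - z.1‖ + ⟪z.2, w.1 - z.1⟫ + f z) (𝓝[Λ] z) (𝓝 (f z)) := by
    have : Continuous (fun w : E n × E n => C * ‖w - z‖ * ‖w.1 - z.1‖ + ⟪z.2, w.1 - z.1⟫ + f z) := by
      fun_prop
    simpa using (this.tendsto z).mono_left (nhdsWithin_le_nhds (s := Λ))
  have h2 : Tendsto (fun w : E n × E n => -(C * ‖w - z‖ * ‖w.1 - z.1‖) + ⟪z.2, w.1 - z.1⟫ + f z) (𝓝[Λ] z) (𝓝 (f z)) := by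
    have : Continuous (fun w : E n × E n => -(C * ‖w - z‖ * ‖w.1 - z.1‖) + ⟪z.2, w.1 - z.1⟫ + f z) := by
      fun_prop
    simpa using (this.tendsto z).mono_left (nhdsWithin_le_nhds (s := Λ))
  have hev : ∀ᶠ w in 𝓝[Λ] z, w ∈ Λ ∧ ‖w - z‖ < r := by
    refine (eventually_mem_nhdsWithin).and ?_
    refine nhdsWithin_le_nhds ?_
    filter_upwards [Metric.ball_mem_nhds z hr] with w hw
    rwa [mem_ball, dist_eq_norm] at hw
  refine tendsto_of_tendsto_of_tendsto_of_le_of_le' h2 h1 ?_ ?_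
  · filter_upwards [hev] with w hw
    have := abs_le.1 (h w hw.1 hw.2)
    linarith [this.1]
  · filter_upwards [hev] with w hw
    have := abs_le.1 (h w hw.1 hw.2)
    linarith [this.2]

theorem t_MAX : S_MAX := by
  intro n Λ f hL hf hD hO
  have hfc : ContinuousOn f Λ := f_cont hD
  -- a maximal pair is a single point
  have key : ∀ z₀ ∈ Λ, ∀ w₀ ∈ Λ, z₀.1 = w₀.1 →
      (∀ z ∈ Λ, ∀ w ∈ Λ, z.1 = w.1 → f z - f w ≤ f z₀ - f w₀) → z₀ = w₀ := by
    intro z₀ hz₀ w₀ hw₀ h01 hmax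
    by_contra hne
    have hv : z₀.2 - w₀.2 ≠ 0 := by
      intro h
      exact hne (Prod.ext h01 (sub_eq_zero.1 h))
    set v := z₀.2 - w₀.2 with hvdef
    have hvpos : 0 < ‖v‖ := norm_pos_iff.2 hv
    obtain ⟨C, r, hr, hDz⟩ := hD z₀ hz₀
    obtain ⟨C', r', hr', hDw⟩ := hD w₀ hw₀
    set ρ : ℝ := min (min r r') (‖v‖ / (2 * (|C| + |C'| + 1))) with hρdef
    have hCC : 0 < |C| + |C'| + 1 := by positivity
    have hρ : 0 < ρ := by
      refine lt_min (lt_min hr hr') (by positivity)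
    have hρr : ρ ≤ r := (min_le_left _ _).trans (min_le_left _ _)
    have hρr' : ρ ≤ r' := (min_le_left _ _).trans (min_le_right _ _)
    have hρv : (|C| + |C'|) * ρ < ‖v‖ := by
      have h1 : ρ ≤ ‖v‖ / (2 * (|C| + |C'| + 1)) := min_le_right _ _
      have h2 : ρ * (2 * (|C| + |C'| + 1)) ≤ ‖v‖ := (le_div_iff₀ (by positivity)).1 h1
      nlinarith [abs_nonneg C, abs_nonneg C']
    obtain ⟨δ, hδ, hOz⟩ := hO z₀ hz₀ ρ hρ
    obtain ⟨δ', hδ', hOw⟩ := hO w₀ hw₀ ρ hρ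
    set t : ℝ := min δ δ' / (2 * ‖v‖) with htdef
    have hmin : 0 < min δ δ' := lt_min hδ hδ'
    have ht : 0 < t := by positivity
    have htv : t * ‖v‖ = min δ δ' / 2 := by
      rw [htdef]; field_simp
    have htv1 : ‖t • v‖ = t * ‖v‖ := by rw [norm_smul, Real.norm_of_nonneg ht.le]
    obtain ⟨z, hz, hz1, hzr⟩ := hOz (z₀.1 + t • v) (by
      rw [add_sub_cancel_left, htv1, htv]
      linarith [min_le_left δ δ'])
    obtain ⟨w, hw, hw1, hwr⟩ := hOw (w₀.1 + t • v) (by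
      rw [add_sub_cancel_left, htv1, htv]
      linarith [min_le_right δ δ'])
    have h1 := hDz z hz (hzr.trans_le hρr)
    have h2 := hDw w hw (hwr.trans_le hρr')
    have h3 := hmax z hz w hw (by rw [hz1, hw1, h01])
    have hz1' : z.1 - z₀.1 = t • v := by rw [hz1]; abel
    have hw1' : w.1 - w₀.1 = t • v := by rw [hw1]; abel
    rw [hz1', inner_smul_right, htv1] at h1
    rw [hw1', inner_smul_right, htv1] at h2
    have htv0 : 0 ≤ t * ‖v‖ := by positivity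
    have h1' : f z - f z₀ - t * ⟪z₀.2, v⟫ ≥ -(|C| * ρ * (t * ‖v‖)) := by
      have := (abs_le.1 h1).1
      have h4 : C * ‖z - z₀‖ * (t * ‖v‖) ≤ |C| * ρ * (t * ‖v‖) := by
        refine mul_le_mul_of_nonneg_right ?_ htv0
        calc C * ‖z - z₀‖ ≤ |C| * ‖z - z₀‖ := mul_le_mul_of_nonneg_right (le_abs_self C) (norm_nonneg _)
          _ ≤ |C| * ρ := mul_le_mul_of_nonneg_left hzr.le (abs_nonneg C)
      linarith
    have h2' : f w - f w₀ - t * ⟪w₀.2, v⟫ ≤ |C'| * ρ * (t * ‖v‖) := by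
      have := (abs_le.1 h2).2
      have h4 : C' * ‖w - w₀‖ * (t * ‖v‖) ≤ |C'| * ρ * (t * ‖v‖) := by
        refine mul_le_mul_of_nonneg_right ?_ htv0
        calc C' * ‖w - w₀‖ ≤ |C'| * ‖w - w₀‖ := mul_le_mul_of_nonneg_right (le_abs_self C') (norm_nonneg _)
          _ ≤ |C'| * ρ := mul_le_mul_of_nonneg_left hwr.le (abs_nonneg C')
      linarith
    have h5 : ⟪z₀.2, v⟫ - ⟪w₀.2, v⟫ = ‖v‖ ^ 2 := by
      rw [← inner_sub_left, ← hvdef, real_inner_self_eq_norm_sq]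
    have h6 : t * ‖v‖ ^ 2 ≤ (|C| + |C'|) * ρ * (t * ‖v‖) := by
      have : t * ‖v‖ ^ 2 = t * ⟪z₀.2, v⟫ - t * ⟪w₀.2, v⟫ := by rw [← h5]; ring
      rw [this]
      nlinarith
    have h7 : (|C| + |C'|) * ρ * (t * ‖v‖) < ‖v‖ * (t * ‖v‖) :=
      mul_lt_mul_of_pos_right hρv (by positivity)
    nlinarith
  -- the maximum exists
  have hK : IsCompact (Λ ∩ {z | z.1 ∈ cube n}) := compactOver hL (isCompact_cube n)
  let S : Set ((E n × E n) × (E n × E n)) :=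
    ((Λ ∩ {z | z.1 ∈ cube n}) ×ˢ (Λ ∩ {z | z.1 ∈ cube n})) ∩ {x | x.1.1 = x.2.1}
  have hS : IsCompact S := (hK.prod hK).inter_right (isClosed_eq (by fun_prop) (by fun_prop))
  have hSne : S.Nonempty := by
    obtain ⟨z, hz⟩ := hL.nonempty
    obtain ⟨k, hk⟩ := exists_latt z.1
    exact ⟨⟨(z.1 + latt k, z.2), (z.1 + latt k, z.2)⟩, ⟨⟨hL.per z hz k, hk⟩, ⟨hL.per z hz k, hk⟩⟩, rfl⟩
  have hgc : ContinuousOn (fun x : (E n × E n) × (E n × E n) => f x.1 - f x.2) S := by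
    refine ContinuousOn.sub ?_ ?_
    · exact hfc.comp continuousOn_fst (fun x hx => hx.1.1.1)
    · exact hfc.comp continuousOn_snd (fun x hx => hx.1.2.1)
  obtain ⟨x, hx, hmax⟩ := hS.exists_isMaxOn hSne hgc
  have hmax' : ∀ z ∈ Λ, ∀ w ∈ Λ, z.1 = w.1 → f z - f w ≤ f x.1 - f x.2 := by
    intro z hz w hw h
    obtain ⟨k, hk⟩ := exists_latt z.1
    have hmem : (((z.1 + latt k, z.2), (w.1 + latt k, w.2)) : (E n × E n) × (E n × E n)) ∈ S :=
      ⟨⟨⟨hL.per z hz k, hk⟩, ⟨hL.per w hw k, by simpa [← h] using hk⟩⟩, by simp [h]⟩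
    have := hmax hmem
    simp only [Set.mem_ofPred_eq] at this
    rw [hf.1 z hz k, hf.1 w hw k] at this
    exact this
  have hx0 : x.1 = x.2 := key x.1 hx.1.1.1 x.2 hx.1.2.1 hx.2 hmax'
  have hle : ∀ z ∈ Λ, ∀ w ∈ Λ, z.1 = w.1 → f z - f w ≤ 0 := by
    intro z hz w hw h
    have := hmax' z hz w hw h
    rwa [hx0, sub_self] at this
  intro z hz w hw h
  refine key z hz w hw h ?_
  intro z' hz' w' hw' h'
  have h1 := hle z' hz' w' hw' h'
  have h2 := hle w hw z hz h.symm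
  linarith

end Pool.Agent.D0H9.NL
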