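import Pool.Agent.D0H39.NL.Stm

/-!
# NL8: the projection to the torus is open
-/

set_option autoImplicit false

open Set Filter Topology Metric Function
open scoped ContDiff RealInnerProductSpace

noncomputable section

namespace Pool.Agent.D0H9.NL

open Pool.Agent.D0H39.NL

variable {n : ℕ}

theorem chi_mk {P : E n →L[ℝ] E n} (hP : IsProj P) (x y : E n) : chi P (mk P x y) = x := by
  simp only [chi, D0H39.NL.mk, map_sub, map_add, hP.1]
  abel

/-- the generating function -/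
def Ph (P : E n →L[ℝ] E n) (η : E n → E n) (f : E n × E n → ℝ) (x : E n) : ℝ :=
  f (mk P x (η x)) + ⟪P (η x), x⟫

section

variable {Λ : Set (E n × E n)} {z : E n × E n} {P : E n →L[ℝ] E n} {η : E n → E n} {ρ r : ℝ}

theorem eta_contDiffAt (hC : IsChart Λ z P η ρ r) {x : E n} (hx : x ∈ ball (chi P z) ρ) :
    ContDiffAt ℝ ∞ η x := hC.smooth.contDiffAt (isOpen_ball.mem_nhds hx)

theorem line_contDiffAt (x v : E n) (s : ℝ) : ContDiffAt ℝ ∞ (fun t : ℝ => x + t • v) s := by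
  fun_prop

theorem eta_line_contDiffAt (hC : IsChart Λ z P η ρ r) {x v : E n} {s : ℝ}
    (hx : x + s • v ∈ ball (chi P z) ρ) : ContDiffAt ℝ ∞ (fun t : ℝ => η (x + t • v)) s :=
  ContDiffAt.comp s (eta_contDiffAt hC hx) (line_contDiffAt x v s)

theorem line_hasDerivAt (x v : E n) (s : ℝ) : HasDerivAt (fun t : ℝ => x + t • v) v s := by
  simpa using ((hasDerivAt_id s).smul_const v).const_add x

theorem eta_line_hasDerivAt (hC : IsChart Λ z P η ρ r) {x v : E n} {s : ℝ}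
    (hx : x + s • v ∈ ball (chi P z) ρ) :
    HasDerivAt (fun t : ℝ => η (x + t • v)) (fderiv ℝ η (x + s • v) v) s := by
  have h1 : HasFDerivAt η (fderiv ℝ η (x + s • v)) (x + s • v) :=
    ((eta_contDiffAt hC hx).differentiableAt (by simp)).hasFDerivAt
  exact h1.comp_hasDerivAt s (line_hasDerivAt x v s)

/-- the derivative of the generating function along lines -/
theorem Ph_hasDerivAt (hC : IsChart Λ z P η ρ r) {f : E n × E n → ℝ} (hf : IsPrimitive Λ f)
    {x v : E n} {s : ℝ} (hx : x + s • v ∈ ball (chi P z) ρ) :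
    HasDerivAt (fun t : ℝ => Ph P η f (x + t • v)) ⟪η (x + s • v), v⟫ s := by
  have hP := hC.proj
  have hη := eta_line_contDiffAt hC hx
  have hη' := eta_line_hasDerivAt hC hx
  set c : ℝ → E n × E n := fun t => mk P (x + t • v) (η (x + t • v)) with hc
  have hcs : ContDiffAt ℝ ∞ c s := by
    have h1 : ContDiffAt ℝ ∞ (fun t : ℝ => P (η (x + t • v))) s := P.contDiff.contDiffAt.comp s hη
    have h2 : ContDiffAt ℝ ∞ (fun t : ℝ => P (x + t • v)) s :=
      P.contDiff.contDiffAt.comp s (line_contDiffAt x v s)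
    exact (((line_contDiffAt x v s).sub h2).sub h1).prodMk (h2.add (hη.sub h1))
  have hmem : ∀ᶠ t in 𝓝 s, c t ∈ Λ := by
    have : ∀ᶠ t in 𝓝 s, x + t • v ∈ ball (chi P z) ρ :=
      (line_contDiffAt x v s).continuousAt.eventually_mem (isOpen_ball.mem_nhds hx)
    filter_upwards [this] with t ht using hC.mem _ ht
  have hd := hf.2 c s hcs hmem
  set A := fderiv ℝ η (x + s • v) v with hA
  have hPη : HasDerivAt (fun t : ℝ => P (η (x + t • v))) (P A) s := P.hasFDerivAt.comp_hasDerivAt s hη'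
  have hPx : HasDerivAt (fun t : ℝ => P (x + t • v)) (P v) s :=
    P.hasFDerivAt.comp_hasDerivAt s (line_hasDerivAt x v s)
  have hcd : HasDerivAt c (v - P v - P A, P v + (A - P A)) s :=
    (((line_hasDerivAt x v s).sub hPx).sub hPη).prodMk (hPx.add (hη'.sub hPη))
  rw [hcd.deriv] at hd
  have h2 : HasDerivAt (fun t : ℝ => ⟪P (η (x + t • v)), x + t • v⟫)
      (⟪P (η (x + s • v)), v⟫ + ⟪P A, x + s • v⟫) s :=
    hPη.inner ℝ (line_hasDerivAt x v s)
  have h3 := hd.add h2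
  refine h3.congr_deriv ?_
  simp only [hc, D0H39.NL.mk]
  set X := x + s • v
  set H := η X
  have e2 : ∀ a b : E n, ⟪a, P b⟫ = ⟪P a, b⟫ := fun a b => (hP.2 a b).symm
  simp only [inner_add_left, inner_sub_left, inner_sub_right, e2, map_add, map_sub, hP.1]
  have e3 : ⟪P A, X⟫ = ⟪P X, A⟫ := by rw [real_inner_comm, e2]
  rw [e3]
  ring

end

/-- comparison along a segment -/
theorem J_mono {Λ : Set (E n × E n)} {z : E n × E n} {P : E n →L[ℝ] E n} {η : E n → E n}
    {ρ r ε M : ℝ} {f : E n × E n → ℝ} (hG : IsGood Λ z P η ρ r ε M) (hf : IsPrimitive Λ f)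
    {x l b : E n} (hl : P l = l) (hx : ∀ t ∈ Icc (0 : ℝ) 1, x + t • l ∈ ball (chi P z) ρ)
    (hcrit : ⟪η x, l⟫ + ⟪b, l⟫ = 0) :
    MonotoneOn (fun t : ℝ => -ε * (Ph P η f (x + t • l) + t * ⟪b, l⟫)) (Icc 0 1) := by
  have hC := hG.chart
  -- the derivative is monotone
  have hmono : MonotoneOn (fun t : ℝ => -ε * ⟪η (x + t • l), l⟫) (Icc 0 1) := by
    have hd : ∀ t ∈ Icc (0 : ℝ) 1, HasDerivAt (fun t : ℝ => -ε * ⟪η (x + t • l), l⟫)
        (-ε * ⟪fderiv ℝ η (x + t • l) l, l⟫) t := by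
      intro t ht
      have h1 := (eta_line_hasDerivAt hC (hx t ht)).inner ℝ (hasDerivAt_const t l)
      simp only [inner_zero_right, zero_add] at h1
      exact h1.const_mul (-ε)
    refine monotoneOn_of_deriv_nonneg (convex_Icc 0 1)
      (fun t ht => (hd t ht).continuousAt.continuousWithinAt)
      (fun t ht => (hd t (interior_subset ht)).differentiableAt.differentiableWithinAt) ?_
    intro t ht
    rw [(hd t (interior_subset ht)).deriv]
    have := hG.sign _ (hx t (interior_subset ht)) l hl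
    rw [real_inner_comm] at this
    linarith
  have hd : ∀ t ∈ Icc (0 : ℝ) 1, HasDerivAt (fun t : ℝ => -ε * (Ph P η f (x + t • l) + t * ⟪b, l⟫))
      (-ε * (⟪η (x + t • l), l⟫ + ⟪b, l⟫)) t := by
    intro t ht
    have h1 := Ph_hasDerivAt hC hf (hx t ht)
    have h2 : HasDerivAt (fun t : ℝ => t * ⟪b, l⟫) ⟪b, l⟫ t := by
      simpa using (hasDerivAt_id t).mul_const ⟪b, l⟫
    exact (h1.add h2).const_mul (-ε)
  refine monotoneOn_of_deriv_nonneg (convex_Icc 0 1)
    (fun t ht => (hd t ht).continuousAt.continuousWithinAt)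
    (fun t ht => (hd t (interior_subset ht)).differentiableAt.differentiableWithinAt) ?_
  intro t ht
  have ht' := interior_subset ht
  rw [(hd t ht').deriv]
  have := hmono (left_mem_Icc.2 zero_le_one) ht' ht'.1
  simp only [zero_smul, add_zero] at this
  have e : -ε * (⟪η (x + t • l), l⟫ + ⟪b, l⟫) = -ε * ⟪η (x + t • l), l⟫ - -ε * ⟪η x, l⟫ +
    -ε * (⟪η x, l⟫ + ⟪b, l⟫) := by ring
  rw [e, hcrit]
  linarith

/-- interior minima are critical points -/
theorem crit {Λ : Set (E n × E n)} {z : E n × E n} {P : E n →L[ℝ] E n} {η : E n → E n}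
    {ρ r ε M : ℝ} {f : E n × E n → ℝ} (hG : IsGood Λ z P η ρ r ε M) (hf : IsPrimitive Λ f)
    {y b k₀ k₁ : E n} {a : ℝ} (hk₁ : P k₁ = k₁) (hka : ‖k₁ - k₀‖ < a)
    (hx : y + k₁ ∈ ball (chi P z) ρ)
    (hmin : ∀ k, P k = k → ‖k - k₀‖ ≤ a →
      -ε * (Ph P η f (y + k₁) + ⟪b, k₁⟫) ≤ -ε * (Ph P η f (y + k) + ⟪b, k⟫)) :
    P (η (y + k₁)) + P b = 0 := by
  have hC := hG.chart
  have hP := hC.proj
  set u := P (η (y + k₁)) + P b with hu
  have hPu : P u = u := by simp [hu, hP.1]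
  have hd : HasDerivAt (fun t : ℝ => -ε * (Ph P η f ((y + k₁) + t • u) + ⟪b, k₁ + t • u⟫))
      (-ε * (⟪η ((y + k₁) + (0 : ℝ) • u), u⟫ + ⟪b, u⟫)) 0 := by
    have h1 := Ph_hasDerivAt hC hf (x := y + k₁) (v := u) (s := 0) (by simpa using hx)
    have h2 : HasDerivAt (fun t : ℝ => ⟪b, k₁ + t • u⟫) ⟪b, u⟫ 0 := by
      have := (hasDerivAt_const (0 : ℝ) b).inner ℝ (line_hasDerivAt k₁ u 0)
      simpa using this
    exact (h1.add h2).const_mul (-ε)
  have hloc : IsLocalMin (fun t : ℝ => -ε * (Ph P η f ((y + k₁) + t • u) + ⟪b, k₁ + t • u⟫)) 0 := by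
    have hcont : ContinuousAt (fun t : ℝ => ‖k₁ + t • u - k₀‖) 0 := by fun_prop
    have hev : ∀ᶠ t in 𝓝 (0 : ℝ), ‖k₁ + t • u - k₀‖ < a := by
      refine hcont.eventually_lt continuousAt_const ?_
      simpa using hka
    filter_upwards [hev] with t ht
    have := hmin (k₁ + t • u) (by simp [hk₁, hPu]) ht.le
    simpa [add_assoc] using this
  have h0 := hloc.hasDerivAt_eq_zero hd
  have hε : ε ≠ 0 := by
    rcases hG.eps with h | h <;> rw [h] <;> norm_num
  have h1 : ⟪η (y + k₁), u⟫ + ⟪b, u⟫ = 0 := by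
    have := (mul_eq_zero.1 h0).resolve_left (neg_ne_zero.2 hε)
    simpa using this
  have h2 : ⟪u, u⟫ = 0 := by
    nth_rewrite 1 [hu]
    rw [inner_add_left, hP.2, hP.2, hPu]
    exact h1
  exact inner_self_eq_zero.1 h2

theorem t_OPEN : S_OPEN := by
  intro n Λ z P η ρ r ε M f hG hz hf hI r₁ hr₁
  have hC := hG.chart
  have hP := hC.proj
  obtain ⟨rI, hrI, hinj⟩ := hI
  set x₀ := chi P z with hx₀
  have hε : |ε| = 1 := by rcases hG.eps with h | h <;> simp [h]
  -- a smaller closed ball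
  have hx₀b : x₀ ∈ ball (chi P z) ρ := mem_ball_self hC.hρ
  have hWc : ContinuousAt (fun x => mk P x (η x)) x₀ := by
    have h1 : ContinuousAt η x₀ := (eta_contDiffAt hC hx₀b).continuousAt
    have h2 : ContinuousAt (fun x => P (η x)) x₀ := P.continuous.continuousAt.comp h1
    have h3 : ContinuousAt (fun x => P x) x₀ := P.continuous.continuousAt
    exact ((continuousAt_id.sub h3).sub h2).prodMk (h3.add (h1.sub h2))
  have hW0 : mk P x₀ (η x₀) = z := hC.base
  obtain ⟨ρ', hρ', hρρ, hWρ⟩ : ∃ ρ' : ℝ, 0 < ρ' ∧ closedBall x₀ ρ' ⊆ ball (chi P z) ρ ∧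
      ∀ x ∈ closedBall x₀ ρ', ‖mk P x (η x) - z‖ < min r₁ rI := by
    have h1 : ∀ᶠ x in 𝓝 x₀, x ∈ ball (chi P z) ρ ∧ ‖mk P x (η x) - z‖ < min r₁ rI := by
      refine (isOpen_ball.eventually_mem hx₀b).and ?_
      have : ContinuousAt (fun x => ‖mk P x (η x) - z‖) x₀ := (hWc.sub continuousAt_const).norm
      refine this.eventually_lt continuousAt_const ?_
      simp only [hW0, sub_self, norm_zero]
      exact lt_min hr₁ hrI
    obtain ⟨ρ', hρ', h⟩ := Metric.nhds_basis_closedBall.eventually_iff.1 h1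
    exact ⟨ρ', hρ', fun x hx => (h hx).1, fun x hx => (h hx).2⟩
  -- a bound for `η`
  obtain ⟨L, hL0, hL⟩ : ∃ L : ℝ, 0 ≤ L ∧ ∀ x ∈ closedBall x₀ ρ', ‖η x‖ ≤ L := by
    have hc : ContinuousOn η (closedBall x₀ ρ') := fun x hx =>
      (eta_contDiffAt hC (hρρ hx)).continuousAt.continuousWithinAt
    obtain ⟨L, hL⟩ := (isCompact_closedBall x₀ ρ').exists_bound_of_continuousOn hc
    exact ⟨L, (norm_nonneg _).trans (hL x₀ (mem_closedBall_self hρ'.le)), hL⟩
  -- the generating function is Lipschitz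
  have hLip : ∀ x ∈ closedBall x₀ ρ', ∀ x' ∈ closedBall x₀ ρ', |Ph P η f x' - Ph P η f x| ≤ L * ‖x' - x‖ := by
    intro x hx x' hx'
    have hseg : ∀ t ∈ Icc (0 : ℝ) 1, x + t • (x' - x) ∈ closedBall x₀ ρ' := by
      intro t ht
      exact (convex_closedBall x₀ ρ').add_smul_sub_mem hx hx' ht
    have hd : ∀ t ∈ Icc (0 : ℝ) 1, HasDerivWithinAt (fun t : ℝ => Ph P η f (x + t • (x' - x)))
        ⟪η (x + t • (x' - x)), x' - x⟫ (Icc 0 1) t := fun t ht =>
      (Ph_hasDerivAt hC hf (hρρ (hseg t ht))).hasDerivWithinAt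
    have := (convex_Icc (0 : ℝ) 1).norm_image_sub_le_of_norm_hasDerivWithin_le (C := L * ‖x' - x‖) hd
      (fun t ht => by
        refine (norm_inner_le_norm _ _).trans ?_
        gcongr
        exact hL _ (hseg t ht)) (left_mem_Icc.2 zero_le_one) (right_mem_Icc.2 zero_le_one)
    simpa using this
  set a : ℝ := ρ' / 2 with ha
  have ha0 : 0 < a := by positivity
  set k₀ := P x₀ with hk₀
  set y₀ := x₀ - P x₀ with hy₀
  set b₀ := P z.1 with hb₀
  have hPk₀ : P k₀ = k₀ := hP.1 x₀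
  have hyk : y₀ + k₀ = x₀ := by simp [hy₀, hk₀]
  have hz1 : z.1 = x₀ - P x₀ - P (η x₀) := by
    conv_lhs => rw [← hW0]
    rfl
  have hb₀' : b₀ = - P (η x₀) := by
    rw [hb₀, hz1]
    simp [hP.1]
  have hy₀' : y₀ = z.1 - P z.1 := by
    rw [← hb₀, hb₀', hz1, hy₀]
    abel
  have hin : ∀ y k : E n, ‖y - y₀‖ ≤ a → ‖k - k₀‖ ≤ a → y + k ∈ closedBall x₀ ρ' := by
    intro y k hy hk
    rw [mem_closedBall, dist_eq_norm, ← hyk]
    calc ‖y + k - (y₀ + k₀)‖ = ‖(y - y₀) + (k - k₀)‖ := by congr 1; abel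
      _ ≤ ‖y - y₀‖ + ‖k - k₀‖ := norm_add_le _ _
      _ ≤ ρ' := by rw [ha] at hy hk; linarith
  -- the function at the base point
  set J : E n → E n → E n → ℝ := fun y b k => -ε * (Ph P η f (y + k) + ⟪b, k⟫) with hJ
  have hseg0 : ∀ k, ‖k - k₀‖ ≤ a → ∀ t ∈ Icc (0 : ℝ) 1, x₀ + t • (k - k₀) ∈ ball (chi P z) ρ := by
    intro k hk t ht
    refine hρρ ?_
    rw [mem_closedBall, dist_eq_norm, add_sub_cancel_left, norm_smul, Real.norm_of_nonneg ht.1]
    calc t * ‖k - k₀‖ ≤ 1 * a := by gcongr; exact ht.2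
      _ ≤ ρ' := by rw [ha]; linarith
  have hmono : ∀ k, P k = k → ‖k - k₀‖ ≤ a →
      MonotoneOn (fun t : ℝ => J y₀ b₀ (k₀ + t • (k - k₀))) (Icc 0 1) := by
    intro k hk hka
    have hl : P (k - k₀) = k - k₀ := by simp [hk, hPk₀]
    have h := J_mono hG hf (b := b₀) hl (hseg0 k hka) (by
      rw [hb₀', inner_neg_left, hP.2, hl, add_neg_cancel])
    have he : (fun t : ℝ => J y₀ b₀ (k₀ + t • (k - k₀))) = fun t : ℝ =>
        -ε * (Ph P η f (x₀ + t • (k - k₀)) + t * ⟪b₀, k - k₀⟫) + -ε * ⟪b₀, k₀⟫ := by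
      funext t
      simp only [hJ]
      rw [← add_assoc, hyk, inner_add_right, inner_smul_right]
      ring
    rw [he]
    exact h.add_const _
  have hJge : ∀ k, P k = k → ‖k - k₀‖ ≤ a → J y₀ b₀ k₀ ≤ J y₀ b₀ k := by
    intro k hk hka
    have := hmono k hk hka (left_mem_Icc.2 zero_le_one) (right_mem_Icc.2 zero_le_one) zero_le_one
    simpa using this
  have hJgt : ∀ k, P k = k → ‖k - k₀‖ ≤ a → k ≠ k₀ → J y₀ b₀ k₀ < J y₀ b₀ k := by
    intro k hk hka hne
    by_contra hle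
    push Not at hle
    have hhalf : (1 / 2 : ℝ) ∈ Icc (0 : ℝ) 1 := by constructor <;> norm_num
    set k₁ := k₀ + (1 / 2 : ℝ) • (k - k₀) with hk₁
    have h1 : J y₀ b₀ k₁ ≤ J y₀ b₀ k₀ := by
      have := hmono k hk hka hhalf (right_mem_Icc.2 zero_le_one) hhalf.2
      simp only [one_smul, add_sub_cancel] at this
      exact this.trans hle
    have hk₁d : k₁ - k₀ = (1 / 2 : ℝ) • (k - k₀) := by rw [hk₁]; abel
    have hPk₁ : P k₁ = k₁ := by simp [hk₁, hk, hPk₀]
    have hk₁a : ‖k₁ - k₀‖ < a := by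
      rw [hk₁d, norm_smul]
      norm_num
      linarith
    have hx₁ : y₀ + k₁ ∈ closedBall x₀ ρ' := hin y₀ k₁ (by simpa using ha0.le) hk₁a.le
    have h2 := crit hG hf (y := y₀) (b := b₀) (k₀ := k₀) hPk₁ hk₁a (hρρ hx₁)
      (fun k' hk' hk'a => h1.trans (hJge k' hk' hk'a))
    have hPb : P b₀ = b₀ := by rw [hb₀, hP.1]
    have hPy : P y₀ = 0 := by simp [hy₀, hP.1]
    have h3 : (mk P (y₀ + k₁) (η (y₀ + k₁))).1 = z.1 := by
      have h4 : P (η (y₀ + k₁)) = - b₀ := by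
        rw [hPb] at h2
        exact eq_neg_of_add_eq_zero_left h2
      simp only [D0H39.NL.mk]
      rw [h4, map_add, hPy, hPk₁, hy₀', hb₀]
      abel
    have h5 := hinj _ (hC.mem _ (hρρ hx₁)) z hz ((hWρ _ hx₁).trans_le (min_le_right _ _))
      (by simpa using hrI) h3
    have h6 : y₀ + k₁ = x₀ := by
      have := congrArg (chi P) h5
      rwa [chi_mk hP] at this
    have h7 : k₁ - k₀ = 0 := by
      rw [← hyk] at h6
      exact sub_eq_zero.2 (add_left_cancel h6)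
    rw [hk₁d] at h7
    have := (smul_eq_zero.1 h7).resolve_left (by norm_num)
    exact hne (sub_eq_zero.1 this)
  -- the compact sets
  have hKc : IsClosed {k : E n | P k = k} := isClosed_eq P.continuous continuous_id
  have hBall : IsCompact ({k : E n | P k = k} ∩ closedBall k₀ a) :=
    (isCompact_closedBall k₀ a).inter_left hKc
  have hSph : IsCompact ({k : E n | P k = k} ∩ sphere k₀ a) :=
    (isCompact_sphere k₀ a).inter_left hKc
  have hcont : ∀ y b : E n, ‖y - y₀‖ ≤ a → ContinuousOn (J y b) (closedBall k₀ a) := by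
    intro y b hy
    have h1 : ContinuousOn (fun k => Ph P η f (y + k)) (closedBall k₀ a) := by
      have : LipschitzOnWith (Real.toNNReal L) (fun k => Ph P η f (y + k)) (closedBall k₀ a) := by
        refine LipschitzOnWith.of_dist_le_mul fun k hk k' hk' => ?_
        rw [mem_closedBall, dist_eq_norm] at hk hk'
        rw [Real.dist_eq, Real.coe_toNNReal L hL0, dist_eq_norm]
        have := hLip (y + k') (hin y k' hy hk') (y + k) (hin y k hy hk)
        simpa using this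
      exact this.continuousOn
    exact continuousOn_const.mul (h1.add (by fun_prop))
  obtain ⟨c, hc0, hc⟩ : ∃ c : ℝ, 0 < c ∧ ∀ k, P k = k → ‖k - k₀‖ = a → J y₀ b₀ k₀ + 2 * c ≤ J y₀ b₀ k := by
    rcases ({k : E n | P k = k} ∩ sphere k₀ a).eq_empty_or_nonempty with h0 | hne
    · refine ⟨1, one_pos, fun k hk hka => ?_⟩
      have : k ∈ ({k : E n | P k = k} ∩ sphere k₀ a) := ⟨hk, by simpa [dist_eq_norm] using hka⟩
      simp [h0] at this
    · obtain ⟨k, hk, hm⟩ := hSph.exists_isMinOn hne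
        ((hcont y₀ b₀ (by simpa using ha0.le)).mono (inter_subset_right.trans sphere_subset_closedBall))
      have hka : ‖k - k₀‖ = a := by simpa [dist_eq_norm] using hk.2
      have hlt := hJgt k hk.1 hka.le (fun h => by rw [h, sub_self, norm_zero] at hka; linarith)
      refine ⟨(J y₀ b₀ k - J y₀ b₀ k₀) / 2, by linarith, fun k' hk' hk'a => ?_⟩
      have : J y₀ b₀ k ≤ J y₀ b₀ k' := hm (show k' ∈ _ from ⟨hk', by simpa [dist_eq_norm] using hk'a⟩)
      linarith
  -- the choice of `δ`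
  set N : ℝ := L + ‖k₀‖ + a with hN
  have hN0 : 0 < N := by positivity
  set Q : ℝ := 1 + ‖P‖ with hQ
  have hQ0 : 0 < Q := by positivity
  refine ⟨min (a / Q) (c / (2 * N * Q)), by positivity, ?_⟩
  intro q hq
  set y := q - P q with hy
  set b := P q with hb
  have hPd : ‖P (q - z.1)‖ ≤ ‖P‖ * ‖q - z.1‖ := P.le_opNorm _
  have hq1 : Q * ‖q - z.1‖ < a := by
    have := hq.trans_le (min_le_left _ _)
    rw [lt_div_iff₀ hQ0] at this
    linarith
  have hq2 : N * (Q * ‖q - z.1‖) < c / 2 := by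
    have := hq.trans_le (min_le_right _ _)
    rw [lt_div_iff₀ (by positivity)] at this
    linarith
  have hyy : ‖y - y₀‖ ≤ Q * ‖q - z.1‖ := by
    have : y - y₀ = (q - z.1) - P (q - z.1) := by
      rw [hy, hy₀', map_sub]; abel
    rw [this]
    calc _ ≤ ‖q - z.1‖ + ‖P (q - z.1)‖ := norm_sub_le _ _
      _ ≤ Q * ‖q - z.1‖ := by rw [hQ]; linarith
  have hbb : ‖b - b₀‖ ≤ Q * ‖q - z.1‖ := by
    have : b - b₀ = P (q - z.1) := by rw [hb, hb₀, map_sub]
    rw [this]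
    calc _ ≤ ‖P‖ * ‖q - z.1‖ := hPd
      _ ≤ Q * ‖q - z.1‖ := by
        rw [hQ]
        nlinarith [norm_nonneg (q - z.1)]
  have hya : ‖y - y₀‖ ≤ a := hyy.trans hq1.le
  have hdiff : ∀ k, ‖k - k₀‖ ≤ a → |J y b k - J y₀ b₀ k| < c := by
    intro k hk
    have h1 := hLip (y₀ + k) (hin y₀ k (by simpa using ha0.le) hk) (y + k) (hin y k hya hk)
    rw [add_sub_add_right_eq_sub] at h1
    have h2 : |⟪b - b₀, k⟫| ≤ ‖b - b₀‖ * ‖k‖ := abs_real_inner_le_norm _ _
    have h3 : ‖k‖ ≤ ‖k₀‖ + a := by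
      calc ‖k‖ = ‖k₀ + (k - k₀)‖ := by rw [add_sub_cancel]
        _ ≤ ‖k₀‖ + ‖k - k₀‖ := norm_add_le _ _
        _ ≤ ‖k₀‖ + a := by linarith
    have h4 : J y b k - J y₀ b₀ k = -ε * ((Ph P η f (y + k) - Ph P η f (y₀ + k)) + ⟪b - b₀, k⟫) := by
      simp only [hJ, inner_sub_left]; ring
    rw [h4, abs_mul, abs_neg, hε, one_mul]
    calc |Ph P η f (y + k) - Ph P η f (y₀ + k) + ⟪b - b₀, k⟫|
        ≤ |Ph P η f (y + k) - Ph P η f (y₀ + k)| + |⟪b - b₀, k⟫| := abs_add_le _ _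
      _ ≤ L * (Q * ‖q - z.1‖) + (Q * ‖q - z.1‖) * (‖k₀‖ + a) := by
          gcongr
          · exact h1.trans (by gcongr)
          · exact h2.trans (by gcongr)
      _ = N * (Q * ‖q - z.1‖) := by rw [hN]; ring
      _ < c := by linarith
  obtain ⟨k₁, hk₁, hmin⟩ := hBall.exists_isMinOn ⟨k₀, hPk₀, mem_closedBall_self ha0.le⟩
    ((hcont y b hya).mono inter_subset_right)
  have hk₁a : ‖k₁ - k₀‖ ≤ a := by simpa [dist_eq_norm] using hk₁.2
  have hmin' : ∀ k, P k = k → ‖k - k₀‖ ≤ a → J y b k₁ ≤ J y b k := fun k hk hka =>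
    hmin (show k ∈ _ from ⟨hk, by simpa [dist_eq_norm] using hka⟩)
  have hlt : ‖k₁ - k₀‖ < a := by
    refine lt_of_le_of_ne hk₁a (fun h => ?_)
    have h1 := hc k₁ hk₁.1 h
    have h2 := hmin' k₀ hPk₀ (by simpa using ha0.le)
    have h3 := abs_lt.1 (hdiff k₁ hk₁a)
    have h4 := abs_lt.1 (hdiff k₀ (by simpa using ha0.le))
    linarith [h3.1, h4.2]
  have hx₁ : y + k₁ ∈ closedBall x₀ ρ' := hin y k₁ hya hk₁a
  have h2 := crit hG hf (y := y) (b := b) (k₀ := k₀) hk₁.1 hlt (hρρ hx₁) hmin'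
  refine ⟨mk P (y + k₁) (η (y + k₁)), hC.mem _ (hρρ hx₁), ?_, (hWρ _ hx₁).trans_le (min_le_left _ _)⟩
  have hPk₁ : P k₁ = k₁ := hk₁.1
  have hPb : P b = b := by rw [hb, hP.1]
  have hPy : P y = 0 := by rw [hy, map_sub, hPb]; exact sub_self b
  have h4 : P (η (y + k₁)) = - b := by
    rw [hPb] at h2
    exact eq_neg_of_add_eq_zero_left h2
  simp only [D0H39.NL.mk]
  rw [h4, map_add, hPy, hPk₁, hy, hb]
  abel

end Pool.Agent.D0H9.NL
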