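import Pool.Agent.D0H9.NL.Cube

/-!
# NL10: separation of two disjoint closed subsets of the torus
-/

set_option autoImplicit false

open Set Filter Topology Metric Function MeasureTheory
open scoped ContDiff RealInnerProductSpace Convolution

noncomputable section

namespace Pool.Agent.D0H9.NL

open Pool.Agent.D0H39.NL

theorem sep_dist {n : ℕ} {A B : Set (E n)} (hA : IsClosed A) (hB : IsClosed B) (hAB : Disjoint A B)
    (pA : ∀ q ∈ A, ∀ k : Fin n → ℤ, q + latt k ∈ A) (pB : ∀ q ∈ B, ∀ k : Fin n → ℤ, q + latt k ∈ B) :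
    ∃ d : ℝ, 0 < d ∧ ∀ a ∈ A, ∀ b ∈ B, 4 * d ≤ dist a b := by
  have hA0 : IsCompact (A ∩ cube n) := (isCompact_cube n).inter_left hA
  obtain ⟨d, hd, hdis⟩ := (hAB.mono_left (inter_subset_left : A ∩ cube n ⊆ A)).exists_thickenings hA0 hB
  refine ⟨d / 4, by positivity, fun a ha b hb => ?_⟩
  obtain ⟨k, hk⟩ := exists_latt a
  by_contra hlt
  push Not at hlt
  have h1 : dist (b + latt k) (a + latt k) < d := by
    rw [dist_add_right, dist_comm]; linarith
  have h2 : b + latt k ∈ thickening d (A ∩ cube n) :=
    mem_thickening_iff.2 ⟨a + latt k, ⟨pA a ha k, hk⟩, h1⟩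
  have h3 : b + latt k ∈ thickening d B := self_subset_thickening hd B (pB b hb k)
  exact (Set.disjoint_left.1 hdis h2) h3

theorem t_SEP : S_SEP := by
  intro n A B hA hB hAB pA pB
  obtain ⟨d, hd, hdist⟩ := sep_dist hA hB hAB pA pB
  let T : Set (E n) := thickening (2 * d) A
  have hTo : IsOpen T := isOpen_thickening
  let s : E n → ℝ := fun q => T.indicator (fun _ => (2 : ℝ)) q - 1
  have hs1 : ∀ q, q ∈ T → s q = 1 := fun q hq => by simp [s, hq]; norm_num
  have hs2 : ∀ q, q ∉ T → s q = -1 := fun q hq => by simp [s, hq]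
  have hsm : Measurable s := (measurable_const.indicator hTo.measurableSet).sub measurable_const
  have hsb : ∀ q, |s q| ≤ 1 := by
    intro q
    by_cases hq : q ∈ T
    · simp [hs1 q hq]
    · simp [hs2 q hq]
  have hTper : ∀ q (k : Fin n → ℤ), q ∈ T → q + latt k ∈ T := by
    intro q k hq
    obtain ⟨a, ha, hqa⟩ := mem_thickening_iff.1 hq
    exact mem_thickening_iff.2 ⟨a + latt k, pA a ha k, by rwa [dist_add_right]⟩
  have hTper' : ∀ q (k : Fin n → ℤ), q + latt k ∈ T ↔ q ∈ T := by
    intro q k
    refine ⟨fun h => ?_, hTper q k⟩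
    have := hTper _ (-k) h
    rwa [latt_neg, add_neg_cancel_right] at this
  have hsper : ∀ q (k : Fin n → ℤ), s (q + latt k) = s q := by
    intro q k
    by_cases hq : q ∈ T
    · rw [hs1 _ hq, hs1 _ (hTper q k hq)]
    · rw [hs2 _ hq, hs2 _ (fun h => hq ((hTper' q k).1 h))]
  let φ : ContDiffBump (0 : E n) := ⟨d / 2, d, by positivity, by linarith⟩
  let μ : Measure (E n) := volume
  let e : E n → ℝ := (φ.normed μ ⋆[ContinuousLinearMap.lsmul ℝ ℝ, μ] s)
  have hloc : LocallyIntegrable s μ := by
    refine (locallyIntegrable_const (1 : ℝ)).mono hsm.aestronglyMeasurable ?_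
    filter_upwards with q
    simpa using hsb q
  have hsupp : Function.support (φ.normed μ) ⊆ ball (0 : E n) d := by
    rw [ContDiffBump.support_normed_eq]
  refine ⟨e, ?_, ?_, ?_, d, hd, ?_, ?_⟩
  · exact (φ.hasCompactSupport_normed).contDiff_convolution_left _ φ.contDiff_normed hloc
  · intro q k
    simp only [e, MeasureTheory.convolution_def]
    refine integral_congr_ae (Filter.Eventually.of_forall fun t => ?_)
    have : q + latt k - t = (q - t) + latt k := by abel
    simp only [this, hsper]
  · intro q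
    have h := dist_convolution_le (μ := μ) (f := φ.normed μ) (g := s) (x₀ := q) (R := d) (ε := 1) (z₀ := 0)
      zero_le_one hsupp (fun x => φ.nonneg_normed x) φ.integral_normed hsm.aestronglyMeasurable
      (fun x _ => by simpa using hsb x)
    simpa using h
  · intro q hq q' hqq'
    have hin : ∀ x ∈ ball q' φ.rOut, x ∈ T := by
      intro x hx
      refine mem_thickening_iff.2 ⟨q, hq, ?_⟩
      have h1 : dist x q' < d := hx
      have h2 : dist q' q < d := by rwa [dist_eq_norm]
      linarith [dist_triangle x q' q]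
    have hq'T : q' ∈ T := hin q' (mem_ball_self hd)
    have := φ.normed_convolution_eq_right (μ := μ) (g := s) (x₀ := q')
      (fun x hx => by rw [hs1 _ (hin x hx), hs1 _ hq'T])
    simp only [e]
    rw [this, hs1 _ hq'T]
  · intro q hq q' hqq'
    have hin : ∀ x ∈ ball q' φ.rOut, x ∉ T := by
      intro x hx hT
      obtain ⟨a, ha, hxa⟩ := mem_thickening_iff.1 hT
      have h1 : dist x q' < d := hx
      have h2 : dist q' q < d := by rwa [dist_eq_norm]
      have h3 := hdist a ha q hq
      have h4 := dist_triangle a x q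
      have h5 := dist_triangle x q' q
      rw [dist_comm] at hxa
      linarith
    have hq'T : q' ∉ T := hin q' (mem_ball_self hd)
    have := φ.normed_convolution_eq_right (μ := μ) (g := s) (x₀ := q')
      (fun x hx => by rw [hs2 _ (hin x hx), hs2 _ hq'T])
    simp only [e]
    rw [this, hs2 _ hq'T]

end Pool.Agent.D0H9.NL
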