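import Pool.Agent.D0H9.NL.SepTwo
import Pool.Agent.Y522.ML.Gen

/-!
# NL16: the generating function of a twist
-/

set_option autoImplicit false

open Set Filter Topology Metric Function
open scoped ContDiff RealInnerProductSpace

noncomputable section

namespace Pool.Agent.D0H9.NL

open Pool.Agent.D0H39.NL

variable {n : ℕ} {Λ : Set (E n × E n)}

theorem tangent_translate (hL : IsLagrangianLift n Λ) {z a : E n × E n} (k : Fin n → ℤ)
    (h : IsTangent Λ z a) : IsTangent Λ (z.1 + latt k, z.2) a := by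
  obtain ⟨c, hc, hev, h0, hd⟩ := h
  refine ⟨fun t => c t + lt2 k, hc.add contDiffAt_const, ?_, ?_, ?_⟩
  · filter_upwards [hev] with t ht
    rw [add_lt2]
    exact hL.per _ ht k
  · simp only [h0, add_lt2]
  · rw [deriv_add_const]
    exact hd

theorem tangent_translate_iff (hL : IsLagrangianLift n Λ) {z a : E n × E n} (k : Fin n → ℤ) :
    IsTangent Λ (z.1 + latt k, z.2) a ↔ IsTangent Λ z a := by
  refine ⟨fun h => ?_, tangent_translate hL k⟩
  have := tangent_translate hL (-k) h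
  simpa only [latt_neg, add_neg_cancel_right] using this

theorem vertical_translate_iff (hL : IsLagrangianLift n Λ) {z : E n × E n} (k : Fin n → ℤ) :
    IsVertical Λ (z.1 + latt k, z.2) ↔ IsVertical Λ z := by
  unfold IsVertical
  simp only [tangent_translate_iff hL k]

/-- the vertical derivative of the quadratic generating function -/
theorem quad_deriv (B : E n → E n →L[ℝ] E n) (hB : ∀ q v w, ⟪B q v, w⟫ = ⟪v, B q w⟫) (c : ℝ) (x p a : E n) :
    HasDerivAt (fun s : ℝ => 1 / 2 * (c * ⟪B x (p + s • a), p + s • a⟫)) (c * ⟪B x p, a⟫) 0 := by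
  have h5 : HasDerivAt (fun s : ℝ => 1 / 2 * (c * (⟪B x p, p⟫ + s * (2 * ⟪B x p, a⟫) +
      s ^ 2 * ⟪B x a, a⟫))) (c * ⟪B x p, a⟫) 0 := by
    have g1 : HasDerivAt (fun s : ℝ => s * (2 * ⟪B x p, a⟫)) (2 * ⟪B x p, a⟫) 0 := by
      have := (hasDerivAt_id (0 : ℝ)).mul_const (2 * ⟪B x p, a⟫)
      rw [one_mul] at this
      exact this
    have g2 : HasDerivAt (fun s : ℝ => s ^ 2 * ⟪B x a, a⟫) 0 0 := by
      have := (hasDerivAt_pow 2 (0 : ℝ)).mul_const ⟪B x a, a⟫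
      simpa using this
    have g3 := ((((hasDerivAt_const (0 : ℝ) ⟪B x p, p⟫).add g1).add g2).const_mul c).const_mul (1 / 2)
    refine g3.congr_deriv ?_
    ring
  refine h5.congr_of_eventuallyEq (Filter.Eventually.of_forall fun s => ?_)
  simp only
  rw [map_add, map_smul, inner_add_left, inner_add_right, inner_add_right,
    inner_smul_left, inner_smul_left, inner_smul_right, inner_smul_right]
  have h7 : ⟪B x a, p⟫ = ⟪B x p, a⟫ := by
    rw [hB, real_inner_comm]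
  simp only [RCLike.conj_to_real]
  rw [h7]
  ring

/-- the derivative in a vertical direction -/
theorem vert_curve {W : Type} [NormedAddCommGroup W] [NormedSpace ℝ W] {f : E n × E n → W}
    {w : E n × E n} (hf : DifferentiableAt ℝ f w) (a : E n) :
    HasDerivAt (fun s : ℝ => f (w.1, w.2 + s • a)) (fderiv ℝ f w (0, a)) 0 := by
  have h2 : HasDerivAt (fun s : ℝ => (w.1, w.2 + s • a)) ((0 : E n), a) 0 := by
    have := ((hasDerivAt_id (0 : ℝ)).smul_const a).const_add w.2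
    simp only [one_smul] at this
    exact (hasDerivAt_const (0 : ℝ) w.1).prodMk this
  have h3 : HasFDerivAt f (fderiv ℝ f w) ((fun s : ℝ => (w.1, w.2 + s • a)) 0) := by
    simp only [zero_smul, add_zero]
    exact hf.hasFDerivAt
  exact h3.comp_hasDerivAt (0 : ℝ) h2

theorem tendsto_vert (w : E n × E n) (a : E n) :
    Tendsto (fun s : ℝ => (w.1, w.2 + s • a)) (𝓝 0) (𝓝 w) := by
  have h : Continuous fun s : ℝ => (w.1, w.2 + s • a) := by fun_prop
  have := h.tendsto 0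
  simpa using this

/-- the inequalities at a point -/
def Gd (Λ : Set (E n × E n)) (k₂ : E n × E n → E n) (C : ℝ) (z : E n × E n) : Prop :=
  ∀ a, IsTangent Λ z a → -C * ‖a.1‖ ^ 2 ≤ ⟪a.1, fderiv ℝ k₂ z (0, a.2)⟫ ∧
      ‖a.2‖ ≤ C * (‖fderiv ℝ k₂ z (0, a.2)‖ + ‖a.1‖)

theorem Gd.mono {k₂ : E n × E n → E n} {C C' : ℝ} {z : E n × E n} (h : Gd Λ k₂ C z) (hC : C ≤ C') :
    Gd Λ k₂ C' z := by
  intro a ha
  obtain ⟨h1, h2⟩ := h a ha
  constructor
  · refine le_trans ?_ h1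
    exact mul_le_mul_of_nonneg_right (neg_le_neg hC) (sq_nonneg _)
  · refine h2.trans ?_
    gcongr

theorem t_K : S_ZCL → S_NV → S_SEP2 → S_K := by
  intro hZ hNV hSEP n Λ B hL hB hσ
  obtain ⟨σ, σper, σ1, hσ⟩ := hσ
  obtain ⟨R, hR⟩ := hL.bdd
  obtain ⟨z₀, hz₀⟩ := hL.nonempty
  have hR0 : 0 ≤ R := (norm_nonneg _).trans (hR _ hz₀)
  have hVc : IsClosed {z | z ∈ Λ ∧ IsVertical Λ z} := hZ n Λ hL
  have hcl : ∀ c : ℝ, IsClosed {z | (z ∈ Λ ∧ IsVertical Λ z) ∧ σ z = c} := by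
    intro c
    refine isClosed_of_closure_subset fun z hz => ?_
    have hzV : z ∈ {z | z ∈ Λ ∧ IsVertical Λ z} := by
      have hsub : {z | (z ∈ Λ ∧ IsVertical Λ z) ∧ σ z = c} ⊆ {z | z ∈ Λ ∧ IsVertical Λ z} :=
        fun w hw => hw.1
      exact hVc.closure_subset_iff.2 hsub hz
    obtain ⟨C, r, hr, h⟩ := hσ z hzV.1 hzV.2
    obtain ⟨w, hw, hwz⟩ := Metric.mem_closure_iff.1 hz r hr
    rw [dist_comm, dist_eq_norm] at hwz
    exact ⟨hzV, by rw [← (h w hw.1.1 hwz).1 hw.1.2]; exact hw.2⟩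
  have hper : ∀ c : ℝ, ∀ z ∈ {z | (z ∈ Λ ∧ IsVertical Λ z) ∧ σ z = c}, ∀ k : Fin n → ℤ,
      (z.1 + latt k, z.2) ∈ {z | (z ∈ Λ ∧ IsVertical Λ z) ∧ σ z = c} := by
    rintro c z ⟨⟨h1, h2⟩, h3⟩ k
    exact ⟨⟨hL.per z h1 k, (vertical_translate_iff hL k).2 h2⟩, by rw [σper]; exact h3⟩
  obtain ⟨s, hs, sper, sb, δ, hδ, sA, sB⟩ := hSEP n {z | (z ∈ Λ ∧ IsVertical Λ z) ∧ σ z = 1}
    {z | (z ∈ Λ ∧ IsVertical Λ z) ∧ σ z = -1} R (hcl 1) (hcl (-1))
    (by
      rw [Set.disjoint_left]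
      rintro z ⟨-, h1⟩ ⟨-, h2⟩
      rw [h1] at h2
      norm_num at h2)
    (hper 1) (hper (-1)) (fun z hz => hR z hz.1.1) (fun z hz => hR z hz.1.1)
  let χ : ContDiffBump (0 : E n) := ⟨R + 1, R + 2, by linarith, by linarith⟩
  have hχs : ContDiff ℝ ∞ (χ : E n → ℝ) := χ.contDiff
  have hχ1 : ∀ p, ‖p‖ ≤ R + 1 → χ p = 1 := fun p hp =>
    χ.one_of_mem_closedBall (by rw [mem_closedBall_zero_iff]; exact hp)
  have hχ0 : ∀ p, R + 2 < ‖p‖ → χ p = 0 := fun p hp =>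
    χ.zero_of_le_dist (by rw [dist_zero_right]; exact hp.le)
  obtain ⟨K, hKd⟩ : ∃ K : E n × E n → ℝ, K = fun w => 1 / 2 * (s w * χ w.2 * ⟪B w.1 w.2, w.2⟫) :=
    ⟨_, rfl⟩
  have hK : ContDiff ℝ ∞ K := by
    rw [hKd]
    exact contDiff_const.mul ((hs.mul (hχs.comp contDiff_snd)).mul
      (((hB.smooth.comp contDiff_fst).clm_apply contDiff_snd).inner ℝ contDiff_snd))
  have hKp : ∀ w (k : Fin n → ℤ), K (w.1 + latt k, w.2) = K w := by
    intro w k
    rw [hKd]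
    simp only [hB.per, sper]
  obtain ⟨k₁, k₂, M, hM, s1, s2, hk, p1, p2, b1, b2, l1, l2⟩ := Pool.Agent.Y522.ML.exists_grad K hK
    hKp (R + 2)
    (fun w hw => by rw [hKd]; simp only [hχ0 _ hw, zero_mul, mul_zero])
  have hgen : IsGen K k₁ k₂ M := ⟨hM, hK, hKp, s1, s2, hk, p1, p2, b1, b2, l1, l2⟩
  have hk2d : Differentiable ℝ k₂ := s2.differentiable (by simp)
  -- near a vertical point
  have hsz : ∀ z ∈ Λ, IsVertical Λ z → ∀ w, ‖w - z‖ < δ → s w = σ z := by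
    intro z hz hv w hw
    rcases σ1 z with h | h
    · rw [h]; exact sA z ⟨⟨hz, hv⟩, h⟩ w hw
    · rw [h]; exact sB z ⟨⟨hz, hv⟩, h⟩ w hw
  have hk2 : ∀ z ∈ Λ, IsVertical Λ z → ∀ w, ‖w - z‖ < min δ 1 → k₂ w = σ z • B w.1 w.2 := by
    intro z hz hv w hw
    refine ext_inner_right ℝ fun a => ?_
    have h1 : ⟪k₂ w, a⟫ = fderiv ℝ K w (0, a) := by
      rw [hk]
      simp
    rw [h1]
    have h4 := vert_curve (hK.differentiable (by simp) w) a
    have h5 := quad_deriv B (fun q v w => hB.symm q v w) (σ z) w.1 w.2 a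
    rw [h4.unique (h5.congr_of_eventuallyEq ?_), inner_smul_left]
    · simp
    · have h6 : ∀ᶠ y : E n × E n in 𝓝 w, ‖y - z‖ < min δ 1 := by
        have : Continuous fun y : E n × E n => ‖y - z‖ := by fun_prop
        exact (this.continuousAt (x := w)).eventually (gt_mem_nhds hw)
      filter_upwards [(tendsto_vert w a).eventually h6] with t ht
      rw [hKd]
      simp only
      rw [hsz z hz hv _ (ht.trans_le (min_le_left _ _)), hχ1, mul_one]
      have h7 : ‖w.2 + t • a - z.2‖ < 1 :=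
        (norm_snd_le ((w.1, w.2 + t • a) - z)).trans_lt (ht.trans_le (min_le_right _ _))
      have h8 : w.2 + t • a = (w.2 + t • a - z.2) + z.2 := by abel
      rw [h8]
      refine (norm_add_le _ _).trans ?_
      linarith [hR z hz]
  have hdk2 : ∀ z ∈ Λ, IsVertical Λ z → ∀ w, ‖w - z‖ < min δ 1 → ∀ v, fderiv ℝ k₂ w (0, v) = σ z • B w.1 v := by
    intro z hz hv w hw v
    have h4 := vert_curve (hk2d w) v
    have h5 : HasDerivAt (fun t : ℝ => σ z • (B w.1 w.2 + t • B w.1 v)) (σ z • B w.1 v) 0 := by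
      have := (((hasDerivAt_id (0 : ℝ)).smul_const (B w.1 v)).const_add (B w.1 w.2)).const_smul (σ z)
      rw [one_smul] at this
      exact this
    refine h4.unique (h5.congr_of_eventuallyEq ?_)
    have h6 : ∀ᶠ y : E n × E n in 𝓝 w, ‖y - z‖ < min δ 1 := by
      have : Continuous fun y : E n × E n => ‖y - z‖ := by fun_prop
      exact (this.continuousAt (x := w)).eventually (gt_mem_nhds hw)
    filter_upwards [(tendsto_vert w v).eventually h6] with t ht
    rw [hk2 z hz hv _ ht]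
    simp only [map_add, map_smul]
  have hDb : ∀ w, ‖fderiv ℝ k₂ w‖ ≤ M := by
    intro w
    have hlip : LipschitzWith ⟨M, hM⟩ k₂ := LipschitzWith.of_dist_le_mul fun x y => by
      rw [dist_eq_norm, dist_eq_norm]
      exact l2 x y
    exact norm_fderiv_le_of_lipschitz ℝ hlip
  have hDp : ∀ w (k : Fin n → ℤ), fderiv ℝ k₂ (w.1 + latt k, w.2) = fderiv ℝ k₂ w := by
    intro w k
    have h1 : (fun y => k₂ (y + lt2 k)) = k₂ := by
      funext y
      rw [add_lt2]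
      exact p2 y k
    have h2 := fderiv_comp_add_right (𝕜 := ℝ) (f := k₂) (x := w) (lt2 k)
    rw [h1, add_lt2] at h2
    exact h2.symm
  -- local
  have hloc : ∀ z ∈ Λ, ∃ C r : ℝ, 0 < r ∧ ∀ w ∈ Λ, ‖w - z‖ < r → Gd Λ k₂ C w := by
    intro z hz
    by_cases hv : IsVertical Λ z
    · obtain ⟨C, r, hr, h⟩ := hσ z hz hv
      refine ⟨C, min r (min δ 1), by positivity, fun w hw hwz a ha => ?_⟩
      obtain ⟨h1, h2⟩ := (h w hw (hwz.trans_le (min_le_left _ _))).2 a ha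
      have h3 := hdk2 z hz hv w (hwz.trans_le (min_le_right _ _)) a.2
      rw [h3, inner_smul_right, norm_smul]
      have h4 : ‖σ z‖ = 1 := by
        rcases σ1 z with h | h <;> rw [h] <;> simp
      rw [h4, one_mul]
      exact ⟨h1, h2⟩
    · obtain ⟨-, C, r, hC, hr, h⟩ := hNV n Λ hL z hz hv
      refine ⟨M * C + C, r, hr, fun w hw hwz a ha => ?_⟩
      have h1 := h w hw hwz a ha
      have h2 : ‖fderiv ℝ k₂ w (0, a.2)‖ ≤ M * ‖a.2‖ := by
        refine ((fderiv ℝ k₂ w).le_opNorm _).trans ?_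
        have : ‖((0 : E n), a.2)‖ = ‖a.2‖ := by simp [Prod.norm_def]
        rw [this]
        exact mul_le_mul_of_nonneg_right (hDb w) (norm_nonneg _)
      have hMC : 0 ≤ M * C := by positivity
      constructor
      · have h3 := abs_real_inner_le_norm a.1 (fderiv ℝ k₂ w (0, a.2))
        have h4 : ‖a.1‖ * ‖fderiv ℝ k₂ w (0, a.2)‖ ≤ ‖a.1‖ * (M * (C * ‖a.1‖)) := by
          refine mul_le_mul_of_nonneg_left (h2.trans ?_) (norm_nonneg _)
          exact mul_le_mul_of_nonneg_left h1 hM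
        have h5 := (abs_le.1 h3).1
        have h6 : 0 ≤ C * ‖a.1‖ ^ 2 := by positivity
        nlinarith
      · have h3 : 0 ≤ ‖fderiv ℝ k₂ w (0, a.2)‖ := norm_nonneg _
        have h4 : 0 ≤ ‖a.1‖ := norm_nonneg _
        nlinarith [mul_nonneg hMC h3, mul_nonneg hMC h4, mul_nonneg hC h3]
  -- compactness
  have hKc : IsCompact (Λ ∩ {z | z.1 ∈ cube n}) := compactOver hL (isCompact_cube n)
  have hunif : ∃ C : ℝ, ∀ z ∈ Λ ∩ {z | z.1 ∈ cube n}, Gd Λ k₂ C z := by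
    refine hKc.induction_on (p := fun s => ∃ C : ℝ, ∀ z ∈ Λ ∩ s, Gd Λ k₂ C z)
      ?_ ?_ ?_ ?_ |>.imp fun C h z hz => h z ⟨hz.1, hz⟩
    · exact ⟨0, fun z hz => by simp at hz⟩
    · rintro s t hst ⟨C, h⟩
      exact ⟨C, fun z hz => h z ⟨hz.1, hst hz.2⟩⟩
    · rintro s t ⟨C, h⟩ ⟨C', h'⟩
      refine ⟨max C C', ?_⟩
      rintro z ⟨hz, hz' | hz'⟩
      · exact (h z ⟨hz, hz'⟩).mono (le_max_left _ _)
      · exact (h' z ⟨hz, hz'⟩).mono (le_max_right _ _)
    · intro z hz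
      obtain ⟨C, r, hr, h⟩ := hloc z hz.1
      refine ⟨ball z r, nhdsWithin_le_nhds (ball_mem_nhds z hr), C, ?_⟩
      rintro w ⟨hw, hw'⟩
      rw [mem_ball, dist_eq_norm] at hw'
      exact h w hw hw'
  obtain ⟨C, hC⟩ := hunif
  refine ⟨K, k₁, k₂, M, max C 0, hgen, le_max_right _ _, ?_⟩
  intro z hz a ha
  obtain ⟨k, hk⟩ := exists_latt z.1
  have := (hC (z.1 + latt k, z.2) ⟨hL.per z hz k, hk⟩).mono (le_max_left C 0) a
    ((tangent_translate_iff hL k).2 ha)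
  rwa [hDp] at this

end Pool.Agent.D0H9.NL
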