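import Pool.Agent.D0H39.NL.Stm

/-!
# The unit cube, and the compactness of `Λ` modulo translations
-/

set_option autoImplicit false

open Set Filter Topology Metric Function
open scoped ContDiff RealInnerProductSpace

noncomputable section

namespace Pool.Agent.D0H9.NL

open Pool.Agent.D0H39.NL

variable {n : ℕ}

/-- the unit cube -/
def cube (n : ℕ) : Set (E n) := (fun x : Fin n → ℝ => (WithLp.toLp 2 x : E n)) '' (Set.pi univ fun _ => Icc (0 : ℝ) 1)

theorem isCompact_cube (n : ℕ) : IsCompact (cube n) :=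
  (isCompact_univ_pi fun _ => isCompact_Icc).image (PiLp.continuous_toLp 2 _)

theorem latt_apply (k : Fin n → ℤ) (i : Fin n) : (latt k : E n) i = (k i : ℝ) := rfl

theorem latt_neg (k : Fin n → ℤ) : (latt (-k) : E n) = - latt k := by
  ext i; simp [latt]

theorem exists_latt (q : E n) : ∃ k : Fin n → ℤ, q + latt k ∈ cube n := by
  refine ⟨fun i => -⌊q i⌋, (fun i => Int.fract (q i)), ?_, ?_⟩
  · intro i _
    exact ⟨Int.fract_nonneg _, (Int.fract_lt_one _).le⟩
  · ext i
    simp [latt, Int.fract, sub_eq_add_neg]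

/-- the part of `Λ` over the cube is compact -/
theorem compactOver {Λ : Set (E n × E n)} (hL : IsLagrangianLift n Λ) {Q : Set (E n)} (hQ : IsCompact Q) :
    IsCompact (Λ ∩ {z | z.1 ∈ Q}) := by
  obtain ⟨R, hR⟩ := hL.bdd
  refine (hQ.prod (isCompact_closedBall (0 : E n) R)).of_isClosed_subset ?_ ?_
  · exact hL.closed.inter (hQ.isClosed.preimage continuous_fst)
  · rintro z ⟨hz, hq⟩
    exact ⟨hq, by simpa using hR z hz⟩

end Pool.Agent.D0H9.NL
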