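import Pool.Agent.D0H9.NL.Cube
import Pool.Agent.D0H39.NL.Stm2

/-!
# NL15: separation of two disjoint closed subsets of the cotangent bundle of the torus
-/

set_option autoImplicit false

open Set Filter Topology Metric Function MeasureTheory
open scoped ContDiff RealInnerProductSpace Convolution

noncomputable section

namespace Pool.Agent.D0H9.NL

open Pool.Agent.D0H39.NL

variable {n : ℕ}

/-- the translation vector -/
def lt2 (k : Fin n → ℤ) : E n × E n := (latt k, 0)

theorem add_lt2 (z : E n × E n) (k : Fin n → ℤ) : z + lt2 k = (z.1 + latt k, z.2) := by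
  ext1
  · rfl
  · simp [lt2]

theorem haar2 : ((volume : Measure (E n)).prod (volume : Measure (E n))).IsAddHaarMeasure :=
  Measure.prod.instIsAddHaarMeasure _ _

theorem neg2 : ((volume : Measure (E n)).prod (volume : Measure (E n))).IsNegInvariant :=
  have := haar2 (n := n)
  Measure.IsAddHaarMeasure.isNegInvariant_of_regular _

theorem sep_dist2 {A B : Set (E n × E n)} {R : ℝ} (hA : IsClosed A) (hB : IsClosed B)
    (hAB : Disjoint A B) (pA : ∀ z ∈ A, ∀ k : Fin n → ℤ, (z.1 + latt k, z.2) ∈ A)
    (pB : ∀ z ∈ B, ∀ k : Fin n → ℤ, (z.1 + latt k, z.2) ∈ B) (bA : ∀ z ∈ A, ‖z.2‖ ≤ R) :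
    ∃ d : ℝ, 0 < d ∧ ∀ a ∈ A, ∀ b ∈ B, 4 * d ≤ dist a b := by
  have hA0 : IsCompact (A ∩ {z | z.1 ∈ cube n}) := by
    refine ((isCompact_cube n).prod (isCompact_closedBall (0 : E n) R)).of_isClosed_subset ?_ ?_
    · exact hA.inter ((isCompact_cube n).isClosed.preimage continuous_fst)
    · rintro z ⟨hz, hq⟩
      exact ⟨hq, by simpa using bA z hz⟩
  obtain ⟨d, hd, hdis⟩ :=
    (hAB.mono_left (inter_subset_left : A ∩ {z | z.1 ∈ cube n} ⊆ A)).exists_thickenings hA0 hB
  refine ⟨d / 4, by positivity, fun a ha b hb => ?_⟩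
  obtain ⟨k, hk⟩ := exists_latt a.1
  by_contra hlt
  push Not at hlt
  have h1 : dist (b + lt2 k) (a + lt2 k) < d := by
    rw [dist_add_right, dist_comm]; linarith
  have h2 : b + lt2 k ∈ thickening d (A ∩ {z | z.1 ∈ cube n}) :=
    mem_thickening_iff.2 ⟨a + lt2 k, ⟨by rw [add_lt2]; exact pA a ha k, by rw [add_lt2]; exact hk⟩, h1⟩
  have h3 : b + lt2 k ∈ thickening d B :=
    self_subset_thickening hd B (by rw [add_lt2]; exact pB b hb k)
  exact (Set.disjoint_left.1 hdis h2) h3

theorem t_SEP2 : S_SEP2 := by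
  intro n A B R hA hB hAB pA pB bA _
  obtain ⟨d, hd, hdist⟩ := sep_dist2 hA hB hAB pA pB bA
  let T : Set (E n × E n) := thickening (2 * d) A
  have hTo : IsOpen T := isOpen_thickening
  let s : E n × E n → ℝ := fun q => T.indicator (fun _ => (2 : ℝ)) q - 1
  have hs1 : ∀ q, q ∈ T → s q = 1 := fun q hq => by simp [s, hq]; norm_num
  have hs2 : ∀ q, q ∉ T → s q = -1 := fun q hq => by simp [s, hq]
  have hsm : Measurable s := (measurable_const.indicator hTo.measurableSet).sub measurable_const
  have hsb : ∀ q, |s q| ≤ 1 := by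
    intro q
    by_cases hq : q ∈ T
    · simp [hs1 q hq]
    · simp [hs2 q hq]
  have hTper : ∀ q (k : Fin n → ℤ), q ∈ T → q + lt2 k ∈ T := by
    intro q k hq
    obtain ⟨a, ha, hqa⟩ := mem_thickening_iff.1 hq
    exact mem_thickening_iff.2 ⟨a + lt2 k, by rw [add_lt2]; exact pA a ha k, by rwa [dist_add_right]⟩
  have hneg : ∀ k : Fin n → ℤ, (lt2 (-k) : E n × E n) = - lt2 k := by
    intro k
    ext1
    · exact latt_neg k
    · simp [lt2]
  have hTper' : ∀ q (k : Fin n → ℤ), q + lt2 k ∈ T ↔ q ∈ T := by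
    intro q k
    refine ⟨fun h => ?_, hTper q k⟩
    have := hTper _ (-k) h
    rwa [hneg, add_neg_cancel_right] at this
  have hsper : ∀ q (k : Fin n → ℤ), s (q + lt2 k) = s q := by
    intro q k
    by_cases hq : q ∈ T
    · rw [hs1 _ hq, hs1 _ (hTper q k hq)]
    · rw [hs2 _ hq, hs2 _ (fun h => hq ((hTper' q k).1 h))]
  let φ : ContDiffBump (0 : E n × E n) := ⟨d / 2, d, by positivity, by linarith⟩
  let μ : Measure (E n × E n) := (volume : Measure (E n)).prod volume
  have i1 : μ.IsAddHaarMeasure := haar2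
  have i2 : μ.IsNegInvariant := neg2
  let e : E n × E n → ℝ := (φ.normed μ ⋆[ContinuousLinearMap.lsmul ℝ ℝ, μ] s)
  have hloc : LocallyIntegrable s μ := by
    refine (locallyIntegrable_const (1 : ℝ)).mono hsm.aestronglyMeasurable ?_
    filter_upwards with q
    simpa using hsb q
  have hsupp : Function.support (φ.normed μ) ⊆ ball (0 : E n × E n) d := by
    rw [ContDiffBump.support_normed_eq]
  refine ⟨e, ?_, ?_, ?_, d, hd, ?_, ?_⟩
  · exact (φ.hasCompactSupport_normed).contDiff_convolution_left _ φ.contDiff_normed hloc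
  · intro q k
    simp only [e, MeasureTheory.convolution_def]
    refine integral_congr_ae (Filter.Eventually.of_forall fun t => ?_)
    have : (q.1 + latt k, q.2) - t = (q - t) + lt2 k := by
      rw [← add_lt2]
      abel
    simp only [this, hsper]
  · intro q
    have h := dist_convolution_le (μ := μ) (f := φ.normed μ) (g := s) (x₀ := q) (R := d) (ε := 1) (z₀ := 0)
      zero_le_one hsupp (fun x => φ.nonneg_normed x) φ.integral_normed hsm.aestronglyMeasurable
      (fun x _ => by simpa using hsb x)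
    simpa using h
  · intro q hq q' hqq'
    have hin : ∀ x ∈ ball q' φ.rOut, x ∈ T := by
      intro x hx
      refine mem_thickening_iff.2 ⟨q, hq, ?_⟩
      have h1 : dist x q' < d := hx
      have h2 : dist q' q < d := by rwa [dist_eq_norm]
      linarith [dist_triangle x q' q]
    have hq'T : q' ∈ T := hin q' (mem_ball_self hd)
    have := φ.normed_convolution_eq_right (μ := μ) (g := s) (x₀ := q')
      (fun x hx => by rw [hs1 _ (hin x hx), hs1 _ hq'T])
    simp only [e]
    rw [this, hs1 _ hq'T]
  · intro q hq q' hqq'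
    have hin : ∀ x ∈ ball q' φ.rOut, x ∉ T := by
      intro x hx hT
      obtain ⟨a, ha, hxa⟩ := mem_thickening_iff.1 hT
      have h1 : dist x q' < d := hx
      have h2 : dist q' q < d := by rwa [dist_eq_norm]
      have h3 := hdist a ha q hq
      have h4 := dist_triangle a x q
      have h5 := dist_triangle x q' q
      rw [dist_comm] at hxa
      linarith
    have hq'T : q' ∉ T := hin q' (mem_ball_self hd)
    have := φ.normed_convolution_eq_right (μ := μ) (g := s) (x₀ := q')
      (fun x hx => by rw [hs2 _ (hin x hx), hs2 _ hq'T])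
    simp only [e]
    rw [this, hs2 _ hq'T]

end Pool.Agent.D0H9.NL
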